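import Pool.Agent.V5helper67.EC.GraphM
import Pool.Agent.N376.LM.Main2
import Pool.Agent.N471.CC.Graph

/-! # Graphs without `C_{2k}` with a margin: a power saving -/

set_option autoImplicit false
set_option maxHeartbeats 800000
set_option linter.unusedSectionVars false

open Finset

namespace Pool.Agent.V5helper67.EC

open Pool.Agent.N721.SR

/-- the constant -/
noncomputable def cst (k : ℕ) (C₀ : ℝ) : ℝ :=
  36 * C₀ + 18 * k * Real.sqrt C₀ + C₀ * (16 + Real.exp (7 * (C₀ + 1)))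

lemma two_pow_le (n : ℝ) (hn : 1 ≤ n) (K : ℕ) (hK : (K : ℝ) ≤ Real.log n / 4) :
    (2 : ℝ) ^ K ≤ n ^ (1 / 4 : ℝ) := by
  have h1 : (2 : ℝ) ≤ Real.exp 1 := by
    have := Real.add_one_le_exp (1 : ℝ)
    linarith
  calc (2 : ℝ) ^ K ≤ Real.exp 1 ^ K := pow_le_pow_left₀ (by norm_num) h1 K
    _ = Real.exp K := by rw [← Real.exp_nat_mul]; simp
    _ ≤ Real.exp (Real.log n * (1 / 4)) := Real.exp_le_exp.2 (by linarith)
    _ = n ^ (1 / 4 : ℝ) := by rw [Real.rpow_def_of_pos (by linarith)]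

theorem coord {k : ℕ} (hk : 2 ≤ k) (C₀ : ℝ) (hC₀ : 0 < C₀)
    (hF : ∀ m : ℕ, 1 ≤ m → (c2k_her hk).F m ≤ C₀ * (m : ℝ) ^ (1 + 1 / (k : ℝ)))
    {V : Type} [Fintype V] [DecidableEq V] (G : SimpleGraph V) [DecidableRel G.Adj]
    (hG : (SimpleGraph.cycleGraph (2 * k)).Free G) {ι : Type} [Fintype ι] (p q : V → ι → ℝ)
    (hp : ∀ x, ∑ i, p x i ^ 2 = 1) (hq : ∀ x, ∑ i, q x i ^ 2 = 1) (a b : ℝ)
    (hb : -1 ≤ b) (hab : b < a) (ha : a ≤ 1)
    (haa : ∀ x y, G.Adj x y → a ≤ ∑ i, p x i * q y i)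
    (hbb : ∀ x y, x ≠ y → ¬ G.Adj x y → ∑ i, p x i * q y i ≤ b) (hV : 1 ≤ Fintype.card V) :
    ee G univ univ ≤ cst k C₀ *
      (Fintype.card V : ℝ) ^ (1 + 1 / (k : ℝ) - ((a - b) / 24) ^ (2 * k) / (2 * k)) := by
  obtain ⟨n, hn⟩ : ∃ n : ℝ, n = Fintype.card V := ⟨_, rfl⟩
  obtain ⟨N, hN⟩ : ∃ N : ℝ, N = n ^ (1 / (k : ℝ)) := ⟨_, rfl⟩
  obtain ⟨τ, hτ⟩ : ∃ τ : ℝ, τ = (a - b) / 24 := ⟨_, rfl⟩
  obtain ⟨δ, hδ⟩ : ∃ δ : ℝ, δ = τ ^ (2 * k) := ⟨_, rfl⟩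
  have hk0 : (0 : ℝ) < k := by
    have : 0 < k := by omega
    exact_mod_cast this
  have hk2 : (2 : ℝ) ≤ k := by exact_mod_cast hk
  have hn1 : 1 ≤ n := by rw [hn]; exact_mod_cast hV
  have hn0 : 0 < n := by linarith
  have hα0 : 0 < 1 / (k : ℝ) := by positivity
  have hα1 : 1 / (k : ℝ) ≤ 1 / 2 := one_div_le_one_div_of_le (by norm_num) hk2
  have hN1 : 1 ≤ N := by rw [hN]; exact Real.one_le_rpow hn1 hα0.le
  have hN0 : 0 < N := by linarith
  have hτ0 : 0 < τ := by rw [hτ]; linarith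
  have hτ1 : τ ≤ 1 / 12 := by rw [hτ]; linarith
  have hδ0 : 0 < δ := by rw [hδ]; positivity
  have hδτ : δ ≤ τ := by
    rw [hδ]
    calc τ ^ (2 * k) ≤ τ ^ 1 := pow_le_pow_of_le_one hτ0.le (by linarith) (by omega)
      _ = τ := pow_one τ
  have hδ1 : δ ≤ 1 / 12 := hδτ.trans hτ1
  have hX : n ^ (1 + 1 / (k : ℝ) - δ / (2 * k)) = (n * N) * n ^ (-(δ / (2 * k))) := by
    rw [sub_eq_add_neg, Real.rpow_add hn0, Real.rpow_add hn0, Real.rpow_one, hN]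
  rw [← hn, ← hτ, ← hδ, hX]
  have hY0 : 0 < n ^ (-(δ / (2 * k))) := Real.rpow_pos_of_pos hn0 _
  have hnN : 0 < n * N := by positivity
  have htriv : ee G univ univ ≤ C₀ * (n * N) := by
    have h1 := (c2k_her hk).le_F G hG univ
    rw [card_univ] at h1
    have h2 := hF _ hV
    rw [← hn, Real.rpow_add hn0, Real.rpow_one, ← hN] at h2
    exact h1.trans h2
  have hdk : δ / (2 * k) ≤ δ := by
    rw [div_le_iff₀ (by positivity)]
    nlinarith
  have hdk4 : δ / (2 * k) ≤ δ / 4 := by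
    rw [div_le_div_iff₀ (by positivity) (by norm_num)]
    nlinarith
  have hs0 : 0 ≤ Real.sqrt C₀ := Real.sqrt_nonneg _
  have he0 : 0 < Real.exp (7 * (C₀ + 1)) := Real.exp_pos _
  -- the trivial cases
  have hbad : ∀ M : ℝ, n ^ δ ≤ M → ee G univ univ ≤ C₀ * M * ((n * N) * n ^ (-(δ / (2 * k)))) := by
    intro M hM
    have h1 : 1 ≤ M * n ^ (-(δ / (2 * k))) := by
      have h2 : n ^ (δ / (2 * k)) ≤ M :=
        (Real.rpow_le_rpow_of_exponent_le hn1 hdk).trans hM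
      rw [Real.rpow_neg hn0.le, ← div_eq_mul_inv, one_le_div (Real.rpow_pos_of_pos hn0 _)]
      exact h2
    calc ee G univ univ ≤ C₀ * (n * N) * 1 := by rw [mul_one]; exact htriv
      _ ≤ C₀ * (n * N) * (M * n ^ (-(δ / (2 * k)))) :=
          mul_le_mul_of_nonneg_left h1 (by positivity)
      _ = _ := by ring
  rcases lt_or_ge (n ^ δ) 16 with hX16 | hX16
  · refine (hbad 16 hX16.le).trans (mul_le_mul_of_nonneg_right ?_ (by positivity))
    unfold cst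
    have : 0 ≤ 18 * (k : ℝ) * Real.sqrt C₀ := by positivity
    nlinarith [mul_pos hC₀ he0]
  rcases lt_or_ge (n ^ (3 / 16 : ℝ)) (1.25 * (C₀ + 1) / τ) with hbig | hbig
  · have h1 : Real.log n ≤ 7 * (C₀ + 1) / τ := by
      have h2 := Real.log_le_log (Real.rpow_pos_of_pos hn0 _) hbig.le
      rw [Real.log_rpow hn0] at h2
      have h3 := Real.log_le_sub_one_of_pos (x := 1.25 * (C₀ + 1) / τ) (by positivity)
      have h4 : 7 * (C₀ + 1) / τ = 5.6 * (1.25 * (C₀ + 1) / τ) := by ring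
      have h5 : 0 < 1.25 * (C₀ + 1) / τ := by positivity
      rw [h4]
      linarith
    have h2 : n ^ δ ≤ Real.exp (7 * (C₀ + 1)) := by
      rw [Real.rpow_def_of_pos hn0]
      refine Real.exp_le_exp.2 ?_
      have h3 : Real.log n * δ ≤ (7 * (C₀ + 1) / τ) * τ :=
        mul_le_mul h1 hδτ hδ0.le (by positivity)
      have h4 : (7 * (C₀ + 1) / τ) * τ = 7 * (C₀ + 1) := by field_simp
      linarith
    refine (hbad _ h2).trans (mul_le_mul_of_nonneg_right ?_ (by positivity))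
    unfold cst
    have : 0 ≤ 18 * (k : ℝ) * Real.sqrt C₀ := by positivity
    nlinarith [mul_pos hC₀ he0]
  -- the main case
  obtain ⟨ρ, hρ⟩ : ∃ ρ : ℝ, ρ = n ^ (-(δ / 2)) := ⟨_, rfl⟩
  have hρ0 : 0 < ρ := by rw [hρ]; exact Real.rpow_pos_of_pos hn0 _
  have hρ1 : ρ ≤ 1 / 4 := by
    have h1 : ρ ^ 2 ≤ (1 / 4) ^ 2 := by
      have h2 : ρ ^ 2 = (n ^ δ)⁻¹ := by
        rw [hρ, ← Real.rpow_natCast, ← Real.rpow_mul hn0.le, ← Real.rpow_neg hn0.le]
        congr 1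
        push_cast
        ring
      rw [h2]
      calc (n ^ δ)⁻¹ ≤ (16 : ℝ)⁻¹ := inv_anti₀ (by norm_num) hX16
        _ = (1 / 4) ^ 2 := by norm_num
    exact le_of_pow_le_pow_left₀ (by norm_num) (by norm_num) h1
  have hρn : 1 ≤ ρ * n := by
    have : ρ * n = n ^ (1 - δ / 2) := by
      rw [sub_eq_add_neg, Real.rpow_add hn0, Real.rpow_one, hρ, mul_comm]
    rw [this]
    exact Real.one_le_rpow hn1 (by linarith)
  have hρi : 1 / ρ = n ^ (δ / 2) := by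
    rw [hρ, Real.rpow_neg hn0.le, one_div, inv_inv]
  have hlog : 0 ≤ Real.log n := Real.log_nonneg hn1
  obtain ⟨K, hK⟩ : ∃ K : ℕ, K = ⌊Real.log n / 4⌋₊ := ⟨_, rfl⟩
  have hK1 : (K : ℝ) ≤ Real.log n / 4 := by rw [hK]; exact Nat.floor_le (by linarith)
  have hK2 : Real.log n / 4 - 1 ≤ K := by
    have := Nat.lt_floor_add_one (Real.log n / 4)
    rw [hK]
    linarith
  have h2K := two_pow_le n hn1 K hK1
  have hKK : 30 * (C₀ / ρ * N + 1) / (a - b) ≤ n / 2 ^ K := by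
    have hab24 : a - b = 24 * τ := by rw [hτ]; ring
    rw [hab24, div_le_div_iff₀ (by positivity) (by positivity)]
    have h1 : C₀ / ρ * N + 1 ≤ (C₀ + 1) * n ^ (9 / 16 : ℝ) := by
      have e1 : C₀ / ρ * N = C₀ * (n ^ (δ / 2) * n ^ (1 / (k : ℝ))) := by
        rw [div_eq_mul_one_div, hρi, hN]; ring
      have e2 : n ^ (δ / 2) * n ^ (1 / (k : ℝ)) ≤ n ^ (9 / 16 : ℝ) := by
        rw [← Real.rpow_add hn0]
        exact Real.rpow_le_rpow_of_exponent_le hn1 (by linarith)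
      have e3 : 1 ≤ n ^ (9 / 16 : ℝ) := Real.one_le_rpow hn1 (by norm_num)
      rw [e1]
      have := mul_le_mul_of_nonneg_left e2 hC₀.le
      linarith
    have h2 : 1.25 * (C₀ + 1) / τ * τ ≤ n ^ (3 / 16 : ℝ) * τ :=
      mul_le_mul_of_nonneg_right hbig hτ0.le
    rw [div_mul_cancel₀ _ hτ0.ne'] at h2
    have h3 : n ^ (9 / 16 : ℝ) * n ^ (1 / 4 : ℝ) * n ^ (3 / 16 : ℝ) = n := by
      rw [← Real.rpow_add hn0, ← Real.rpow_add hn0]
      norm_num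
    have h4 : 0 < n ^ (9 / 16 : ℝ) := Real.rpow_pos_of_pos hn0 _
    have h5 : 0 < n ^ (1 / 4 : ℝ) := Real.rpow_pos_of_pos hn0 _
    calc 30 * (C₀ / ρ * N + 1) * 2 ^ K
        ≤ 30 * ((C₀ + 1) * n ^ (9 / 16 : ℝ)) * n ^ (1 / 4 : ℝ) := by gcongr
      _ = 24 * (1.25 * (C₀ + 1)) * (n ^ (9 / 16 : ℝ) * n ^ (1 / 4 : ℝ)) := by ring
      _ ≤ 24 * (n ^ (3 / 16 : ℝ) * τ) * (n ^ (9 / 16 : ℝ) * n ^ (1 / 4 : ℝ)) := by gcongr
      _ = (n ^ (9 / 16 : ℝ) * n ^ (1 / 4 : ℝ) * n ^ (3 / 16 : ℝ)) * (24 * τ) := by ring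
      _ = n * (24 * τ) := by rw [h3]
  have hmain := graph_ineq hk C₀ hC₀ hF G hG p q hp hq a b hb hab ha haa hbb n N hn hN ρ hρ0 hρ1
    hρn K hKK τ hτ
  rw [← hδ] at hmain
  have g1 : ρ ^ (1 / (k : ℝ)) = n ^ (-(δ / (2 * k))) := by
    rw [hρ, ← Real.rpow_mul hn0.le]
    congr 1
    field_simp
  have g2 : Real.sqrt (C₀ / ρ) = Real.sqrt C₀ * n ^ (δ / 4) := by
    rw [div_eq_mul_one_div, hρi, Real.sqrt_mul hC₀.le]
    congr 1
    rw [Real.sqrt_eq_rpow, ← Real.rpow_mul hn0.le]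
    congr 1
    ring
  have g3 : Real.exp (-(2 * K * δ)) ≤ 3 * n ^ (-(δ / 2)) := by
    have e1 : -(2 * K * δ) ≤ 1 + Real.log n * (-(δ / 2)) := by nlinarith
    calc Real.exp (-(2 * K * δ)) ≤ Real.exp (1 + Real.log n * (-(δ / 2))) :=
          Real.exp_le_exp.2 e1
      _ = Real.exp 1 * n ^ (-(δ / 2)) := by
          rw [Real.exp_add, Real.rpow_def_of_pos hn0 (-(δ / 2))]
      _ ≤ 3 * n ^ (-(δ / 2)) := by
          have e2 : Real.exp 1 ≤ 3 := by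
            have := Real.exp_one_lt_d9
            linarith
          exact mul_le_mul_of_nonneg_right e2 (Real.rpow_pos_of_pos hn0 _).le
  have g4 : n ^ (δ / 4) * n ^ (-(δ / 2)) ≤ n ^ (-(δ / (2 * k))) := by
    rw [← Real.rpow_add hn0]
    exact Real.rpow_le_rpow_of_exponent_le hn1 (by linarith)
  rw [g1, g2] at hmain
  have g5 : 6 * k * (n * N) * (Real.sqrt C₀ * n ^ (δ / 4)) * Real.exp (-(2 * K * δ)) ≤
      18 * k * Real.sqrt C₀ * ((n * N) * n ^ (-(δ / (2 * k)))) := by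
    have hp4 : 0 < n ^ (δ / 4) := Real.rpow_pos_of_pos hn0 _
    calc 6 * k * (n * N) * (Real.sqrt C₀ * n ^ (δ / 4)) * Real.exp (-(2 * K * δ))
        ≤ 6 * k * (n * N) * (Real.sqrt C₀ * n ^ (δ / 4)) * (3 * n ^ (-(δ / 2))) := by
          gcongr
      _ = 18 * k * Real.sqrt C₀ * (n * N) * (n ^ (δ / 4) * n ^ (-(δ / 2))) := by ring
      _ ≤ 18 * k * Real.sqrt C₀ * (n * N) * n ^ (-(δ / (2 * k))) := by gcongr
      _ = _ := by ring
  have g6 : 0 ≤ C₀ * (16 + Real.exp (7 * (C₀ + 1))) * ((n * N) * n ^ (-(δ / (2 * k)))) := by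
    positivity
  unfold cst
  calc ee G univ univ ≤ 36 * C₀ * n ^ (-(δ / (2 * k))) * (n * N) +
        18 * k * Real.sqrt C₀ * ((n * N) * n ^ (-(δ / (2 * k)))) := by linarith
    _ ≤ _ := by nlinarith

theorem bound (k : ℕ) (hk : 2 ≤ k) : ∃ C : ℝ, 0 < C ∧
    ∀ (V : Type) [Fintype V] (H : Type) [NormedAddCommGroup H] [InnerProductSpace ℝ H]
      (G : SimpleGraph V) (u v : V → H) (a b : ℝ), -1 ≤ b → b < a → a ≤ 1 →
      (SimpleGraph.cycleGraph (2 * k)).Free G →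
      (∀ x, ‖u x‖ ≤ 1) → (∀ x, ‖v x‖ ≤ 1) →
      (∀ x y, G.Adj x y → a ≤ inner ℝ (u x) (v y)) →
      (∀ x y, x ≠ y → ¬ G.Adj x y → inner ℝ (u x) (v y) ≤ b) →
      (Nat.card G.edgeSet : ℝ) ≤
        C * (Fintype.card V : ℝ) ^ (1 + 1 / (k : ℝ) - ((a - b) / 24) ^ (2 * k) / (2 * k)) := by
  classical
  have hP := c2k_her hk
  obtain ⟨C₀, hC₀, hF⟩ := bondy_simonovits hk hP
  have hcst : 0 < cst k C₀ := by
    unfold cst
    positivity
  refine ⟨cst k C₀, hcst, ?_⟩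
  intro V _ H _ _ G u v a b hb hab ha hG hu hv haa hbb
  rcases Nat.eq_zero_or_pos (Fintype.card V) with h0 | h0
  · have hV : IsEmpty V := Fintype.card_eq_zero_iff.1 h0
    have : IsEmpty G.edgeSet := by
      constructor
      rintro ⟨e, _⟩
      induction e with
      | _ x y => exact hV.elim x
    rw [Nat.card_of_isEmpty]
    simp only [Nat.cast_zero]
    positivity
  obtain ⟨ι, _, p, q, hp, hq, hpq⟩ := Pool.Agent.N376.LM.exists_coord u v hu hv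
  have main := coord hk C₀ hC₀ hF G hG p q hp hq a b hb hab ha
    (fun x y h => by rw [hpq]; exact haa x y h)
    (fun x y hxy h => by rw [hpq]; exact hbb x y hxy h) h0
  have h1 : ee G univ univ = 2 * (Nat.card G.edgeSet : ℝ) := by
    have h2 := Pool.Agent.N471.CC.two_edges_eq G
    unfold ee
    rw [Set.ncard_eq_toFinset_card'] at h2
    rw [← h2, Nat.card_eq_fintype_card, ← Set.toFinset_card]
  rw [h1] at main
  have h3 : (0 : ℝ) ≤ (Nat.card G.edgeSet : ℝ) := Nat.cast_nonneg _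
  linarith

end Pool.Agent.V5helper67.EC
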