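import Pool.Agent.V5helper67.EA.Tree

open Finset

namespace Pool.Agent.V5helper67.EC

open Pool.Agent.Helper120.EaModel Pool.Agent.V5helper67.EA

/-- Parameters of the instance: `L` blocks, `g` spokes in each block, the first spoke has `N`
edges and the others `n`, the first rim bundle has `M` edges and the others `n`, `P` leaves. -/
structure Pm where
  L : ℕ
  g : ℕ
  n : ℕ
  N : ℕ
  M : ℕ
  P : ℕ
  hg : 2 ≤ g
  hn : 1 ≤ n
  hN : 1 ≤ N
  hM : 1 ≤ M

namespace Pm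

variable (Q : Pm)

/-- number of edges of the spoke `l` -/
def sl (l : ℕ) : ℕ := if l = 0 then Q.N else Q.n

/-- number of edges of the rim bundle `i` between the tips `i - 1` and `i` -/
def rm (i : ℕ) : ℕ := if i = 0 then 0 else if i = 1 then Q.M else Q.n

theorem sl_pos (l : ℕ) : 0 < Q.sl l := by
  unfold sl
  have := Q.hn
  have := Q.hN
  split_ifs <;> omega

theorem sl_le (l : ℕ) : Q.sl l ≤ Q.N + Q.n := by
  unfold sl
  split_ifs <;> omega

theorem pos_of_rm {i : ℕ} (k : Fin (Q.rm i)) : 0 < i := by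
  rcases Nat.eq_zero_or_pos i with h | h
  · subst h
    exact absurd k.2 (by simp [rm])
  · exact h

/-- spoke edges (and the vertices on the spokes) of one block -/
abbrev Spk := Σ l : Fin Q.g, Fin (Q.sl l)

/-- rim edges (and the member vertices) of one block -/
abbrev Rim := Σ i : Fin Q.g, Fin (Q.rm i)

/-- vertices different from the root -/
abbrev Dep := (Fin Q.L × Q.Spk) ⊕ (Fin Q.L × Q.Rim) ⊕ Fin Q.P

/-- vertices -/
abbrev Vx := Option Q.Dep

/-- edges -/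
abbrev Ex := Q.Dep ⊕ (Fin Q.L × Q.Rim)

variable {Q}

/-- vertex on a spoke -/
def sv (j : Fin Q.L) (l : Fin Q.g) (t : Fin (Q.sl l)) : Q.Vx := some (Sum.inl (j, ⟨l, t⟩))

/-- member vertex -/
def mv (j : Fin Q.L) (i : Fin Q.g) (k : Fin (Q.rm i)) : Q.Vx := some (Sum.inr (Sum.inl (j, ⟨i, k⟩)))

/-- tip of a spoke -/
def tip (j : Fin Q.L) (l : Fin Q.g) : Q.Vx :=
  sv j l ⟨Q.sl l - 1, by have := Q.sl_pos l; omega⟩

/-- spoke edge -/
def se (j : Fin Q.L) (l : Fin Q.g) (t : Fin (Q.sl l)) : Q.Ex := Sum.inl (Sum.inl (j, ⟨l, t⟩))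

/-- frozen edge of a member -/
def fe (j : Fin Q.L) (i : Fin Q.g) (k : Fin (Q.rm i)) : Q.Ex :=
  Sum.inl (Sum.inr (Sum.inl (j, ⟨i, k⟩)))

/-- rim edge -/
def re (j : Fin Q.L) (i : Fin Q.g) (k : Fin (Q.rm i)) : Q.Ex := Sum.inr (j, ⟨i, k⟩)

/-- predecessor in `Fin g` -/
def pr (i : Fin Q.g) : Fin Q.g := ⟨i.val - 1, by have := i.2; omega⟩

/-- the other end of the edge of a vertex -/
def par : Q.Dep → Q.Vx
  | Sum.inl (j, ⟨l, t⟩) => if t.val = 0 then none else sv j l ⟨t.val - 1, by have := t.2; omega⟩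
  | Sum.inr (Sum.inl (j, ⟨i, _⟩)) => tip j i
  | Sum.inr (Sum.inr _) => none

/-- upper end -/
def hiV : Q.Ex → Q.Vx
  | Sum.inl d => some d
  | Sum.inr (j, ⟨i, k⟩) => mv j i k

/-- lower end -/
def loV : Q.Ex → Q.Vx
  | Sum.inl d => par d
  | Sum.inr (j, ⟨i, _⟩) => tip j (pr i)

/-- rank of a vertex -/
def rk : Q.Vx → ℕ
  | none => 0
  | some (Sum.inl (_, ⟨_, t⟩)) => t.val + 1
  | some (Sum.inr (Sum.inl _)) => Q.N + Q.n + 1
  | some (Sum.inr (Sum.inr _)) => 1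

theorem rk_tip (j : Fin Q.L) (l : Fin Q.g) : rk (tip j l) < Q.N + Q.n + 1 := by
  have h1 := Q.sl_pos l
  have h2 := Q.sl_le l
  simp only [tip, sv, rk]
  omega

theorem rk_par (d : Q.Dep) : rk (par d) < rk (some d : Q.Vx) := by
  rcases d with ⟨j, ⟨l, t⟩⟩ | ⟨j, ⟨i, k⟩⟩ | q
  · simp only [par]
    split_ifs with h
    · simp [rk]
    · simp only [sv, rk]
      omega
  · simp only [par, rk]
    exact rk_tip j i
  · simp [par, rk]

theorem rk_lt (e : Q.Ex) : rk (loV e) < rk (hiV e) := by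
  rcases e with d | ⟨j, ⟨i, k⟩⟩
  · exact rk_par d
  · exact rk_tip j (pr i)

theorem lohi_inj (e e' : Q.Ex) (h1 : loV e = loV e') (h2 : hiV e = hiV e') : e = e' := by
  rcases e with d | ⟨j, ⟨i, k⟩⟩ <;> rcases e' with d' | ⟨j', ⟨i', k'⟩⟩
  · simp only [hiV, Option.some.injEq] at h2
    rw [h2]
  · exfalso
    simp only [hiV, mv, Option.some.injEq] at h2
    subst h2
    simp only [loV, par, tip, sv, Option.some.injEq, Sum.inl.injEq, Prod.mk.injEq, true_and,
      Sigma.mk.injEq] at h1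
    have h3 := congrArg Fin.val h1.1
    have h4 := Q.pos_of_rm k'
    simp only [pr] at h3
    omega
  · exfalso
    simp only [hiV, mv, Option.some.injEq] at h2
    subst h2
    simp only [loV, par, tip, sv, Option.some.injEq, Sum.inl.injEq, Prod.mk.injEq, true_and,
      Sigma.mk.injEq] at h1
    have h3 := congrArg Fin.val h1.1
    have h4 := Q.pos_of_rm k
    simp only [pr] at h3
    omega
  · simp only [hiV, mv, Option.some.injEq, Sum.inr.injEq, Sum.inl.injEq] at h2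
    rw [h2]

/-- endpoints of the edges -/
def ends (e : Q.Ex) : Sym2 Q.Vx := s(hiV e, loV e)

theorem ends_inj : Function.Injective (ends : Q.Ex → Sym2 Q.Vx) := by
  intro e e' h
  unfold ends at h
  rw [Sym2.eq_iff] at h
  rcases h with ⟨h1, h2⟩ | ⟨h1, h2⟩
  · exact lohi_inj e e' h2 h1
  · exfalso
    have h3 := rk_lt e
    have h4 := rk_lt e'
    rw [h1, h2] at h3
    omega

theorem ends_not_diag (e : Q.Ex) : ¬ (ends e).IsDiag := by
  unfold ends
  rw [Sym2.mk_isDiag_iff]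
  intro h
  have h3 := rk_lt e
  rw [h] at h3
  omega

/-- level weight -/
def lw : Q.Ex → ℕ
  | Sum.inl (Sum.inl (_, ⟨l, _⟩)) => l.val
  | Sum.inl (Sum.inr _) => 0
  | Sum.inr (_, ⟨i, _⟩) => 3 * Q.g - i.val

/-- block of an active edge -/
def bl : Q.Ex → Option (Fin Q.L)
  | Sum.inl (Sum.inl (j, _)) => some j
  | Sum.inl (Sum.inr _) => none
  | Sum.inr (j, _) => some j

/-- small part of the weight -/
def sm (e : Q.Ex) : ℕ :=
  match bl e with
  | none => 0
  | some j => (3 * Q.g) ^ (Q.L - 1 - j.val) * lw e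

/-- common large part of the weight of the active edges -/
def W0 (Q : Pm) : ℕ := 2 + ∑ e : Q.Ex, sm e

/-- weight of an edge -/
def wt (e : Q.Ex) : ℕ := if bl e = none then 1 else W0 Q + sm e

/-- the instance -/
def GG (Q : Pm) : WGraph Q.Vx Q.Ex where
  ends := ends
  ends_injective := ends_inj
  no_loop := ends_not_diag
  weight := wt
  weight_pos := by
    intro e
    unfold wt W0
    split_ifs <;> omega

/-! ## Cuts -/

/-- vertices of the tips `a .. b` of the block `j` and of the parts of the spokes above `p` -/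
def SS (j : Fin Q.L) (a b : ℕ) (p : ℕ → ℕ) : Set Q.Vx :=
  {v | match v with
    | none => False
    | some (Sum.inl (j', ⟨l, t⟩)) => j' = j ∧ a ≤ l.val ∧ l.val ≤ b ∧ p l.val ≤ t.val
    | some (Sum.inr (Sum.inl (j', ⟨i, _⟩))) => j' = j ∧ a ≤ i.val ∧ i.val ≤ b
    | some (Sum.inr (Sum.inr _)) => False}

theorem sv_mem {j : Fin Q.L} {a b : ℕ} {p : ℕ → ℕ} {j' : Fin Q.L} {l : Fin Q.g}
    {t : Fin (Q.sl l)} : sv j' l t ∈ SS j a b p ↔
      j' = j ∧ a ≤ l.val ∧ l.val ≤ b ∧ p l.val ≤ t.val := Iff.rfl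

theorem mv_mem {j : Fin Q.L} {a b : ℕ} {p : ℕ → ℕ} {j' : Fin Q.L} {i : Fin Q.g}
    {k : Fin (Q.rm i)} : mv j' i k ∈ SS j a b p ↔
      j' = j ∧ a ≤ i.val ∧ i.val ≤ b := Iff.rfl

theorem none_notMem {j : Fin Q.L} {a b : ℕ} {p : ℕ → ℕ} : (none : Q.Vx) ∉ SS j a b p :=
  fun h => h

theorem tip_mem {j : Fin Q.L} {a b : ℕ} {p : ℕ → ℕ} (hp : ∀ l, a ≤ l → l ≤ b → p l < Q.sl l)
    {j' : Fin Q.L} {l : Fin Q.g} : tip j' l ∈ SS j a b p ↔ j' = j ∧ a ≤ l.val ∧ l.val ≤ b := by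
  unfold tip
  rw [sv_mem]
  constructor
  · rintro ⟨h1, h2, h3, _⟩
    exact ⟨h1, h2, h3⟩
  · rintro ⟨h1, h2, h3⟩
    refine ⟨h1, h2, h3, ?_⟩
    have := hp _ h2 h3
    show p l.val ≤ Q.sl l - 1
    omega

/-- `e` crosses the cut -/
def Cr (j : Fin Q.L) (a b : ℕ) (p : ℕ → ℕ) (e : Q.Ex) : Prop :=
  match e with
  | Sum.inl (Sum.inl (j', ⟨l, t⟩)) => j' = j ∧ a ≤ l.val ∧ l.val ≤ b ∧ t.val = p l.val
  | Sum.inl (Sum.inr _) => False
  | Sum.inr (j', ⟨i, _⟩) => j' = j ∧ (i.val = a ∨ i.val = b + 1)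

theorem cr_iff {j : Fin Q.L} {a b : ℕ} {p : ℕ → ℕ} (hab : a ≤ b)
    (hp : ∀ l, a ≤ l → l ≤ b → p l < Q.sl l) (e : Q.Ex) :
    Cr j a b p e ↔ ¬ (hiV e ∈ SS j a b p ↔ loV e ∈ SS j a b p) := by
  rcases e with (⟨j', ⟨l, t⟩⟩ | ⟨j', ⟨i, k⟩⟩ | q) | ⟨j', ⟨i, k⟩⟩
  · have hhi : hiV (Sum.inl (Sum.inl (j', ⟨l, t⟩)) : Q.Ex) = sv j' l t := rfl
    have hlo : loV (Sum.inl (Sum.inl (j', ⟨l, t⟩)) : Q.Ex) =
      if t.val = 0 then none else sv j' l ⟨t.val - 1, by have := t.2; omega⟩ := rfl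
    rw [hhi, hlo, sv_mem]
    show (j' = j ∧ a ≤ l.val ∧ l.val ≤ b ∧ t.val = p l.val) ↔ _
    split_ifs with h0
    · simp only [none_notMem, iff_false, not_not]
      constructor
      · rintro ⟨h1, h2, h3, h4⟩
        exact ⟨h1, h2, h3, by omega⟩
      · rintro ⟨h1, h2, h3, h4⟩
        exact ⟨h1, h2, h3, by omega⟩
    · rw [sv_mem]
      constructor
      · rintro ⟨h1, h2, h3, h4⟩ h5
        have := (h5.1 ⟨h1, h2, h3, by omega⟩).2.2.2
        simp only at this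
        omega
      · intro h
        by_cases h1 : j' = j ∧ a ≤ l.val ∧ l.val ≤ b
        · refine ⟨h1.1, h1.2.1, h1.2.2, ?_⟩
          by_contra hcon
          apply h
          constructor
          · rintro ⟨a1, a2, a3, a4⟩
            refine ⟨a1, a2, a3, ?_⟩
            show p l.val ≤ t.val - 1
            omega
          · rintro ⟨a1, a2, a3, a4⟩
            have a5 : p l.val ≤ t.val - 1 := a4
            exact ⟨a1, a2, a3, by omega⟩
        · exfalso
          apply h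
          constructor
          · rintro ⟨a1, a2, a3, _⟩
            exact absurd ⟨a1, a2, a3⟩ h1
          · rintro ⟨a1, a2, a3, _⟩
            exact absurd ⟨a1, a2, a3⟩ h1
  · have hhi : hiV (Sum.inl (Sum.inr (Sum.inl (j', ⟨i, k⟩))) : Q.Ex) = mv j' i k := rfl
    have hlo : loV (Sum.inl (Sum.inr (Sum.inl (j', ⟨i, k⟩))) : Q.Ex) = tip j' i := rfl
    rw [hhi, hlo, mv_mem, tip_mem hp]
    show False ↔ _
    simp
  · have hlo : loV (Sum.inl (Sum.inr (Sum.inr q)) : Q.Ex) = none := rfl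
    have hhi : (hiV (Sum.inl (Sum.inr (Sum.inr q)) : Q.Ex) ∈ SS j a b p) ↔ False := Iff.rfl
    rw [hlo, hhi]
    show False ↔ _
    simp [none_notMem]
  · have hhi : hiV (Sum.inr (j', ⟨i, k⟩) : Q.Ex) = mv j' i k := rfl
    have hlo : loV (Sum.inr (j', ⟨i, k⟩) : Q.Ex) = tip j' (pr i) := rfl
    have hi0 := Q.pos_of_rm k
    rw [hhi, hlo, mv_mem, tip_mem hp]
    show (j' = j ∧ (i.val = a ∨ i.val = b + 1)) ↔
      ¬ ((j' = j ∧ a ≤ i.val ∧ i.val ≤ b) ↔ (j' = j ∧ a ≤ i.val - 1 ∧ i.val - 1 ≤ b))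
    by_cases hj : j' = j
    · simp only [hj, true_and]
      constructor
      · intro h1 h2
        omega
      · intro h1
        by_contra h2
        apply h1
        constructor <;> intro h3 <;> omega
    · simp [hj]

end Pm

end Pool.Agent.V5helper67.EC
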