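import Pool.Agent.V5helper67.EC.Main
import Pool.Agent.N721.SR.Bs
import Pool.Agent.N721.SR.C2k

/-! # Graphs without `C_{2k}` with a margin: the inequality for a given number of features -/

set_option autoImplicit false
set_option maxHeartbeats 800000
set_option linter.unusedSectionVars false

open Finset

namespace Pool.Agent.V5helper67.EC

open Pool.Agent.N721.SR

theorem graph_ineq {k : ℕ} (hk : 2 ≤ k) (C₀ : ℝ) (hC₀ : 0 < C₀)
    (hF : ∀ m : ℕ, 1 ≤ m → (c2k_her hk).F m ≤ C₀ * (m : ℝ) ^ (1 + 1 / (k : ℝ)))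
    {V : Type} [Fintype V] [DecidableEq V] (G : SimpleGraph V) [DecidableRel G.Adj]
    (hG : (SimpleGraph.cycleGraph (2 * k)).Free G) {ι : Type} [Fintype ι] (p q : V → ι → ℝ)
    (hp : ∀ x, ∑ i, p x i ^ 2 = 1) (hq : ∀ x, ∑ i, q x i ^ 2 = 1) (a b : ℝ)
    (hb : -1 ≤ b) (hab : b < a) (ha : a ≤ 1)
    (haa : ∀ x y, G.Adj x y → a ≤ ∑ i, p x i * q y i)
    (hbb : ∀ x y, x ≠ y → ¬ G.Adj x y → ∑ i, p x i * q y i ≤ b)
    (n N : ℝ) (hn : n = Fintype.card V) (hN : N = n ^ (1 / (k : ℝ)))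
    (ρ : ℝ) (hρ0 : 0 < ρ) (hρ1 : ρ ≤ 1 / 4) (hρn : 1 ≤ ρ * n) (K : ℕ)
    (hK : 30 * (C₀ / ρ * N + 1) / (a - b) ≤ n / 2 ^ K) (τ : ℝ) (hτ : τ = (a - b) / 24) :
    ee G univ univ ≤ 36 * C₀ * ρ ^ (1 / (k : ℝ)) * (n * N) +
      6 * k * (n * N) * Real.sqrt (C₀ / ρ) * Real.exp (-(2 * K * τ ^ (2 * k))) := by
  classical
  have hP := c2k_her hk
  have hk0 : (0 : ℝ) < k := by
    have : 0 < k := by omega
    exact_mod_cast this
  have hk2 : (2 : ℝ) ≤ k := by exact_mod_cast hk
  have hα0 : 0 < 1 / (k : ℝ) := by positivity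
  have hα1 : 1 / (k : ℝ) ≤ 1 := by
    rw [div_le_one hk0]; linarith
  have hn0 : 0 < n := by
    by_contra hcon
    push Not at hcon
    have : ρ * n ≤ 0 := mul_nonpos_of_nonneg_of_nonpos hρ0.le hcon
    linarith
  have hn1 : 1 ≤ n := by
    rw [hn] at hn0 ⊢
    have : 0 < Fintype.card V := by exact_mod_cast hn0
    exact_mod_cast this
  have hN1 : 1 ≤ N := by rw [hN]; exact Real.one_le_rpow hn1 hα0.le
  have hN0 : 0 < N := by linarith
  have hNk : N ^ k = n := by rw [hN]; exact rpow_root (by omega) n hn0.le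
  have hτ0 : 0 < τ := by rw [hτ]; linarith
  have hτ1 : τ ≤ 1 / 12 := by rw [hτ]; linarith
  set B : ℝ := C₀ / ρ with hB
  have hB0 : 0 < B := by positivity
  set H : Finset V := univ.filter fun x => B * N < ee G {x} univ with hH
  have htail := hP.tail_core (1 / (k : ℝ)) C₀ ρ hα0 hα1 hC₀ hρ0 hρ1 G hG
    (by rw [← hn]; exact hρn) (fun t h1 _ => hF t h1) H (fun x hx => by
      rw [hH, mem_filter] at hx
      rw [← hn, ← hN]
      exact hx.2)
  rw [← hn, ← hN] at htail
  have hx₁ : ∀ x ∉ H, ee G {x} univ ≤ B * N := by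
    intro x hx
    rw [hH, mem_filter] at hx
    push Not at hx
    exact hx (mem_univ x)
  have hdeg : ∀ v, ((del G H).degree v : ℝ) ≤ B * N :=
    del_degree G H (B * N) (by positivity) hx₁
  have hfree : (SimpleGraph.cycleGraph (2 * k)).Free (del G H) := by
    intro hcon
    exact hG (hcon.trans (SimpleGraph.IsContained.of_le (del_le G H)))
  have htr := trace_C2k (del G H) hk hfree (B * N) hdeg
  rw [← hn] at htr
  set A : Matrix V V ℝ := (del G H).adjMatrix ℝ with hA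
  have hAH : A.IsHermitian := by
    rw [Matrix.IsHermitian, Matrix.conjTranspose_eq_transpose_of_trivial]
    exact (del G H).transpose_adjMatrix
  have hA0 : ∀ x y, 0 ≤ A x y := by
    intro x y
    rw [hA, SimpleGraph.adjMatrix_apply]
    split_ifs <;> norm_num
  have hadj : ∀ x y, A x y ≠ 0 → (del G H).Adj x y := by
    intro x y h
    by_contra hcon
    apply h
    rw [hA, SimpleGraph.adjMatrix_apply, if_neg hcon]
  set E : V → Finset V := fun y => univ.filter fun z => z = y ∨ G.Adj z y with hE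
  have hEc : ∀ x y, A x y ≠ 0 → (#(E y) : ℝ) ≤ B * N + 1 := by
    intro x y hxy
    have h1 := hx₁ y (hadj x y hxy).2.2
    rw [ee_degree, sum_singleton] at h1
    have h2 : #(E y) ≤ G.degree y + 1 := by
      have h3 : E y ⊆ insert y (G.neighborFinset y) := by
        intro z hz
        rw [hE] at hz
        simp only [mem_filter, mem_univ, true_and] at hz
        rw [mem_insert, SimpleGraph.mem_neighborFinset]
        rcases hz with h | h
        · exact Or.inl h
        · exact Or.inr h.symm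
      exact (card_le_card h3).trans ((card_insert_le _ _).trans
        (by rw [SimpleGraph.card_neighborFinset_eq_degree]))
    have h3 : (#(E y) : ℝ) ≤ (G.degree y : ℝ) + 1 := by exact_mod_cast h2
    linarith
  have hαpos : 0 < a - b := by linarith
  have hstep : ∀ (K : ℕ) (w : (Fin K → Bool) → V → ℝ), (∀ c x, 0 ≤ w c x) →
      (∀ x, ∑ c, w c x = 1) → (∀ c, ∑ x, w c x = n / 2 ^ K) →
      30 * (B * N + 1) / (a - b) ≤ n / 2 ^ K →
      ∃ s t : V → ℝ, (∀ x, |s x| ≤ 1) ∧ (∀ y, |t y| ≤ 1) ∧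
        (4 * τ) * ∑ x, ∑ y, A x y ≤
          ∑ x, ∑ y, A x y * ∑ c, w c x * ((s x - (∑ z, w c z * s z) / (n / 2 ^ K)) / 2 * t y) := by
    intro K w hw hs hm hmK
    have hm0 : 0 < n / 2 ^ K := by positivity
    obtain ⟨s, t, h1, h2, h3⟩ := step p q hp hq a b hb hab ha A hA0
      (fun x y h => haa x y (hadj x y h).1) E
      (fun x y z h hz => by
        rw [hE] at hz
        simp only [mem_filter, mem_univ, true_and, not_or] at hz
        exact hbb z y hz.1 hz.2) (B * N + 1) hEc w hw hs (n / 2 ^ K) hm0 hm (by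
        rw [div_le_iff₀ hm0]
        rw [div_le_iff₀ hαpos] at hmK
        linarith)
    refine ⟨s, t, h1, h2, le_trans (le_of_eq ?_) h3⟩
    rw [hτ]
    ring
  obtain ⟨w, t, hw, hs, hm, ht, hj⟩ := tree A (4 * τ) (30 * (B * N + 1) / (a - b)) n hn0 hn.symm
    hstep K hK
  set S : ℝ := Real.sqrt (8 * (k : ℝ) ^ 2 * (B * N) * n * N) with hS
  have hSarg : 0 < 8 * (k : ℝ) ^ 2 * (B * N) * n * N := by positivity
  have hS0 : 0 < S := Real.sqrt_pos.2 hSarg
  have hSk : S ^ (2 * k) = (8 * (k : ℝ) ^ 2) ^ k * (B * N) ^ k * n ^ k * n := by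
    rw [pow_mul, hS, Real.sq_sqrt hSarg.le, mul_pow, mul_pow, mul_pow, hNk]
  have hT : (Fintype.card V : ℝ) ^ k * ∑ v, (A ^ (2 * k)) v v ≤ S ^ (2 * k) := by
    rw [hSk, ← hn]
    calc n ^ k * ∑ v, (A ^ (2 * k)) v v
        ≤ n ^ k * ((8 * (k : ℝ) ^ 2) ^ (k - 1) * (B * N) ^ k * n) :=
          mul_le_mul_of_nonneg_left htr (by positivity)
      _ ≤ n ^ k * ((8 * (k : ℝ) ^ 2) ^ k * (B * N) ^ k * n) := by
          have h1 : (8 * (k : ℝ) ^ 2) ^ (k - 1) ≤ (8 * (k : ℝ) ^ 2) ^ k := by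
            refine pow_le_pow_right₀ ?_ (by omega)
            nlinarith
          gcongr
      _ = _ := by ring
  have hmain := main_ineq A hAH hA0 k hk w hw hs (by rw [← hn]; exact hm) t ht τ hτ0 hτ1 hj S hS0 hT
  have hee : ee (del G H) univ univ = ∑ x, ∑ y, A x y := by
    unfold ee
    refine Finset.sum_congr rfl fun x _ => Finset.sum_congr rfl fun y _ => ?_
    rw [hA, SimpleGraph.adjMatrix_apply]
    congr
  rw [← hee, ← hn] at hmain
  have h2S : 2 * Real.sqrt n * S ≤ 6 * k * (n * N) * Real.sqrt B := by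
    have e1 : 2 * Real.sqrt n * S = 2 * Real.sqrt (8 * ((k : ℝ) * (n * N)) ^ 2 * B) := by
      rw [mul_assoc, hS, ← Real.sqrt_mul hn0.le]
      congr 2
      ring
    rw [e1, Real.sqrt_mul (by positivity), Real.sqrt_mul (by norm_num),
      Real.sqrt_sq (by positivity)]
    have e2 : Real.sqrt 8 ≤ 3 := by
      rw [Real.sqrt_le_left (by norm_num)]
      norm_num
    have e3 : 0 ≤ (k : ℝ) * (n * N) * Real.sqrt B := by positivity
    nlinarith
  have hfin : ee (del G H) univ univ ≤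
      6 * k * (n * N) * Real.sqrt B * Real.exp (-(2 * K * τ ^ (2 * k))) := by
    rw [Real.exp_neg, ← div_eq_mul_inv, le_div_iff₀ (Real.exp_pos _)]
    exact hmain.trans h2S
  have h4 := ee_del G H
  linarith

end Pool.Agent.V5helper67.EC
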