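import Pool.Agent.N721.SR.Spec

/-! # Sums over the edges of products of weak features: the upper bound

The form `∑ A x y ∑_c w c x ∏_j (1 + ε c_j t_j y)` for weights `w` which are balanced over the
`2 ^ K` cells `c`, bounded by the number of closed walks of length `2 k`.
-/

set_option autoImplicit false
set_option maxHeartbeats 400000

open Finset

namespace Pool.Agent.V5helper67.EC

open Pool.Agent.N721.SR

/-- sign -/
def sb (b : Bool) : ℝ := if b then 1 else -1

lemma sb_true : sb true = 1 := rfl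

lemma sb_false : sb false = -1 := rfl

lemma sb_sq (b : Bool) : sb b * sb b = 1 := by
  cases b <;> simp [sb]

lemma abs_sb (b : Bool) : |sb b| = 1 := by
  cases b <;> simp [sb]

lemma sb_mul_ne {b b' : Bool} (h : b ≠ b') : sb b * sb b' = -1 := by
  cases b <;> cases b' <;> simp_all [sb]

/-- Walsh functions -/
def wal {K : ℕ} (J : Finset (Fin K)) (c : Fin K → Bool) : ℝ := ∏ j ∈ J, sb (c j)

lemma abs_wal {K : ℕ} (J : Finset (Fin K)) (c : Fin K → Bool) : |wal J c| = 1 := by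
  unfold wal
  rw [Finset.abs_prod]
  exact Finset.prod_eq_one fun j _ => abs_sb _

lemma sum_powers {K : ℕ} (f : Fin K → ℝ) :
    ∑ J : Finset (Fin K), ∏ j ∈ J, f j = ∏ j, (1 + f j) := by
  rw [Finset.prod_one_add, Finset.powerset_univ]

lemma wal_orth {K : ℕ} (c c' : Fin K → Bool) :
    ∑ J : Finset (Fin K), wal J c * wal J c' = if c = c' then (2 : ℝ) ^ K else 0 := by
  have h1 : ∀ J : Finset (Fin K), wal J c * wal J c' = ∏ j ∈ J, sb (c j) * sb (c' j) := by
    intro J
    unfold wal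
    rw [← Finset.prod_mul_distrib]
  simp only [h1]
  rw [sum_powers]
  split_ifs with h
  · subst h
    rw [Finset.prod_congr rfl fun j _ => by rw [sb_sq]]
    rw [Finset.prod_const, Finset.card_univ, Fintype.card_fin]
    norm_num
  · obtain ⟨j, hj⟩ := Function.ne_iff.1 h
    refine Finset.prod_eq_zero (Finset.mem_univ j) ?_
    rw [sb_mul_ne hj]
    norm_num

/-- Parseval's identity on the cube -/
lemma parseval_cube {K : ℕ} (a : (Fin K → Bool) → ℝ) :
    ∑ J : Finset (Fin K), (∑ c, wal J c * a c) ^ 2 = 2 ^ K * ∑ c, a c ^ 2 := by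
  have h1 : ∀ J : Finset (Fin K), (∑ c, wal J c * a c) ^ 2 =
      ∑ c, ∑ c', (wal J c * wal J c') * (a c * a c') := by
    intro J
    rw [sq, Finset.sum_mul_sum]
    exact Finset.sum_congr rfl fun c _ => Finset.sum_congr rfl fun c' _ => by ring
  simp only [h1]
  rw [Finset.sum_comm, Finset.mul_sum]
  refine Finset.sum_congr rfl fun c _ => ?_
  rw [Finset.sum_comm]
  simp only [← Finset.sum_mul, wal_orth]
  simp only [ite_mul, zero_mul, Finset.sum_ite_eq, Finset.mem_univ, if_true]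
  ring

lemma pow_mean {ι : Type} (s : Finset ι) (w z : ι → ℝ) (hw : ∀ i ∈ s, 0 ≤ w i)
    (hz : ∀ i ∈ s, 0 ≤ z i) (n : ℝ) (hn : ∑ i ∈ s, w i ≤ n) (k : ℕ) (hk : 1 ≤ k) :
    (∑ i ∈ s, w i * z i) ^ k ≤ n ^ (k - 1) * ∑ i ∈ s, w i * z i ^ k := by
  set W := ∑ i ∈ s, w i with hW
  have hW0 : 0 ≤ W := Finset.sum_nonneg hw
  have hR0 : 0 ≤ ∑ i ∈ s, w i * z i ^ k :=
    Finset.sum_nonneg fun i hi => mul_nonneg (hw i hi) (pow_nonneg (hz i hi) k)
  rcases hW0.eq_or_lt with h0 | h0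
  · have hz0 : ∀ i ∈ s, w i = 0 := (Finset.sum_eq_zero_iff_of_nonneg hw).1 h0.symm
    have : ∑ i ∈ s, w i * z i = 0 := Finset.sum_eq_zero fun i hi => by rw [hz0 i hi, zero_mul]
    rw [this, zero_pow (by omega)]
    exact mul_nonneg (pow_nonneg (hW0.trans hn) _) hR0
  · have h := Real.pow_arith_mean_le_arith_mean_pow s (fun i => w i / W) z
      (fun i hi => div_nonneg (hw i hi) hW0) (by rw [← Finset.sum_div, ← hW, div_self h0.ne']) hz k
    have e1 : ∑ i ∈ s, w i / W * z i = (∑ i ∈ s, w i * z i) / W := by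
      rw [Finset.sum_div]
      exact Finset.sum_congr rfl fun i _ => by ring
    have e2 : ∑ i ∈ s, w i / W * z i ^ k = (∑ i ∈ s, w i * z i ^ k) / W := by
      rw [Finset.sum_div]
      exact Finset.sum_congr rfl fun i _ => by ring
    rw [e1, e2, div_pow, div_le_div_iff₀ (pow_pos h0 k) h0] at h
    obtain ⟨r, rfl⟩ : ∃ r, k = r + 1 := ⟨k - 1, by omega⟩
    rw [Nat.add_sub_cancel]
    have h2 : (∑ i ∈ s, w i * z i) ^ (r + 1) ≤ W ^ r * ∑ i ∈ s, w i * z i ^ (r + 1) := by
      have e3 : (∑ i ∈ s, w i * z i ^ (r + 1)) * W ^ (r + 1) =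
          (W ^ r * ∑ i ∈ s, w i * z i ^ (r + 1)) * W := by ring
      rw [e3] at h
      exact le_of_mul_le_mul_right h h0
    refine h2.trans (mul_le_mul_of_nonneg_right (pow_le_pow_left₀ hW0 hn r) hR0)

lemma young (m : ℕ) (u v : ℝ) (hu : 0 ≤ u) (hv : 0 ≤ v) :
    u ^ m * v ≤ u ^ (m + 1) + v ^ (m + 1) := by
  rcases le_total u v with h | h
  · have : u ^ m * v ≤ v ^ m * v := mul_le_mul_of_nonneg_right (pow_le_pow_left₀ hu h m) hv
    rw [← pow_succ] at this
    have := pow_nonneg hu (m + 1)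
    linarith
  · have : u ^ m * v ≤ u ^ m * u := mul_le_mul_of_nonneg_left h (pow_nonneg hu m)
    rw [← pow_succ] at this
    have := pow_nonneg hv (m + 1)
    linarith

variable {V : Type} [Fintype V] [DecidableEq V]

/-- the Walsh coefficients of the weights -/
def zJ {K : ℕ} (w : (Fin K → Bool) → V → ℝ) (J : Finset (Fin K)) (x : V) : ℝ :=
  ∑ c, wal J c * w c x

lemma abs_zJ {K : ℕ} (w : (Fin K → Bool) → V → ℝ) (hw : ∀ c x, 0 ≤ w c x)
    (hs : ∀ x, ∑ c, w c x = 1) (J : Finset (Fin K)) (x : V) : |zJ w J x| ≤ 1 := by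
  unfold zJ
  refine (Finset.abs_sum_le_sum_abs _ _).trans ?_
  rw [← hs x]
  refine Finset.sum_le_sum fun c _ => ?_
  rw [abs_mul, abs_wal, one_mul, abs_of_nonneg (hw c x)]

/-- Bessel's inequality -/
lemma bessel {K : ℕ} (w : (Fin K → Bool) → V → ℝ) (hw : ∀ c x, 0 ≤ w c x)
    (hs : ∀ x, ∑ c, w c x = 1) (hm : ∀ c, ∑ x, w c x = Fintype.card V / 2 ^ K) (f : V → ℝ) :
    ∑ J : Finset (Fin K), (∑ x, f x * zJ w J x) ^ 2 ≤ Fintype.card V * ∑ x, f x ^ 2 := by
  have h1 : ∀ J : Finset (Fin K), ∑ x, f x * zJ w J x = ∑ c, wal J c * ∑ x, f x * w c x := by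
    intro J
    unfold zJ
    simp only [Finset.mul_sum]
    rw [Finset.sum_comm]
    exact Finset.sum_congr rfl fun c _ => Finset.sum_congr rfl fun x _ => by ring
  simp only [h1]
  rw [parseval_cube]
  have h2 : ∀ c, (∑ x, f x * w c x) ^ 2 ≤
      (Fintype.card V / 2 ^ K) * ∑ x, w c x * f x ^ 2 := by
    intro c
    rw [← hm c]
    exact Finset.sum_sq_le_sum_mul_sum_of_sq_eq_mul _ (fun x _ => hw c x)
      (fun x _ => mul_nonneg (hw c x) (sq_nonneg _)) (fun x _ => by ring)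
  calc (2 : ℝ) ^ K * ∑ c, (∑ x, f x * w c x) ^ 2
      ≤ 2 ^ K * ∑ c, (Fintype.card V / 2 ^ K) * ∑ x, w c x * f x ^ 2 := by
        refine mul_le_mul_of_nonneg_left (Finset.sum_le_sum fun c _ => h2 c) (by positivity)
    _ = Fintype.card V * ∑ c, ∑ x, w c x * f x ^ 2 := by
        rw [← Finset.mul_sum, ← mul_assoc]
        congr 1
        field_simp
    _ = Fintype.card V * ∑ x, f x ^ 2 := by
        congr 1
        rw [Finset.sum_comm]
        refine Finset.sum_congr rfl fun x _ => ?_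
        rw [← Finset.sum_mul, hs x, one_mul]

/-- **The upper bound.** -/
theorem upper (A : Matrix V V ℝ) (hA : A.IsHermitian) (k : ℕ) (hk : 1 ≤ k) {K : ℕ}
    (w : (Fin K → Bool) → V → ℝ) (hw : ∀ c x, 0 ≤ w c x)
    (hs : ∀ x, ∑ c, w c x = 1) (hm : ∀ c, ∑ x, w c x = Fintype.card V / 2 ^ K)
    (t : Fin K → V → ℝ) (ht : ∀ j y, |t j y| ≤ 1) (τ : ℝ) (hτ : 0 ≤ τ) (S : ℝ) (hS : 0 < S)
    (hT : (Fintype.card V : ℝ) ^ k * ∑ v, (A ^ (2 * k)) v v ≤ S ^ (2 * k)) :
    ∑ x, ∑ y, A x y * ∑ c, w c x * ∏ j, (1 + τ ^ (2 * k - 1) * (sb (c j) * t j y)) ≤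
      2 * Real.sqrt (Fintype.card V) * S * (1 + τ ^ (2 * k)) ^ K := by
  set n : ℝ := (Fintype.card V : ℝ) with hn
  have hn0 : 0 ≤ n := Nat.cast_nonneg _
  set ε := τ ^ (2 * k - 1) with hε
  have hε0 : 0 ≤ ε := pow_nonneg hτ _
  have hE := exists_eig hA
  set φ : V → V → ℝ := fun i v => hA.eigenvectorBasis i v with hφ
  set l := hA.eigenvalues with hl
  set T : Finset (Fin K) → V → ℝ := fun J y => ∏ j ∈ J, t j y with hTJ
  set b2 : Finset (Fin K) → ℝ := fun J => ∑ i, l i ^ 2 * co φ (zJ w J) i ^ 2 with hb2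
  have hb20 : ∀ J, 0 ≤ b2 J := fun J => Finset.sum_nonneg fun i _ => by positivity
  set b : Finset (Fin K) → ℝ := fun J => Real.sqrt (b2 J) with hb
  have hb0 : ∀ J, 0 ≤ b J := fun J => Real.sqrt_nonneg _
  -- expansion
  have e1 : ∀ (c : Fin K → Bool) (y : V), ∏ j, (1 + ε * (sb (c j) * t j y)) =
      ∑ J : Finset (Fin K), ε ^ (#J) * (wal J c * T J y) := by
    intro c y
    rw [← sum_powers]
    refine Finset.sum_congr rfl fun J _ => ?_
    rw [Finset.prod_mul_distrib, Finset.prod_const, Finset.prod_mul_distrib]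
    rfl
  have e2 : ∑ x, ∑ y, A x y * ∑ c, w c x * ∏ j, (1 + ε * (sb (c j) * t j y)) =
      ∑ J : Finset (Fin K), ε ^ (#J) * ∑ x, ∑ y, A x y * zJ w J x * T J y := by
    simp only [e1]
    have f1 : ∀ x y, A x y * ∑ c, w c x * ∑ J : Finset (Fin K), ε ^ (#J) * (wal J c * T J y) =
        ∑ J : Finset (Fin K), ε ^ (#J) * (A x y * zJ w J x * T J y) := by
      intro x y
      unfold zJ
      simp only [Finset.mul_sum, Finset.sum_mul]
      rw [Finset.sum_comm]
      exact Finset.sum_congr rfl fun J _ => Finset.sum_congr rfl fun c _ => by ring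
    simp only [f1]
    have f2 : ∀ x, ∑ y, ∑ J : Finset (Fin K), ε ^ (#J) * (A x y * zJ w J x * T J y) =
        ∑ J : Finset (Fin K), ∑ y, ε ^ (#J) * (A x y * zJ w J x * T J y) :=
      fun x => Finset.sum_comm
    simp only [f2]
    rw [Finset.sum_comm]
    refine Finset.sum_congr rfl fun J _ => ?_
    simp only [Finset.mul_sum]
  rw [e2]
  have hTn : ∀ J, ∑ y, T J y ^ 2 ≤ n := by
    intro J
    rw [hn]
    calc ∑ y, T J y ^ 2 ≤ ∑ _y : V, (1 : ℝ) := by
          refine Finset.sum_le_sum fun y _ => ?_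
          have : |T J y| ≤ 1 := by
            rw [hTJ]
            simp only
            rw [Finset.abs_prod]
            exact Finset.prod_le_one (fun j _ => abs_nonneg _) fun j _ => ht j y
          rw [← sq_abs]
          exact pow_le_one₀ (abs_nonneg _) this
      _ = _ := by simp
  have e3 : ∀ J, ∑ x, ∑ y, A x y * zJ w J x * T J y ≤ Real.sqrt n * b J := by
    intro J
    rw [hE.bilin]
    have f1 : (∑ i, l i * co φ (zJ w J) i * co φ (T J) i) ^ 2 ≤ b2 J * n := by
      have f2 := Finset.sum_mul_sq_le_sq_mul_sq univ (fun i => l i * co φ (zJ w J) i)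
        (fun i => co φ (T J) i)
      refine f2.trans ?_
      have f3 : ∑ i, (l i * co φ (zJ w J) i) ^ 2 = b2 J := by
        rw [hb2]
        exact Finset.sum_congr rfl fun i _ => by ring
      rw [f3, hE.parseval]
      exact mul_le_mul_of_nonneg_left (hTn J) (hb20 J)
    refine (Real.le_sqrt_of_sq_le f1).trans (le_of_eq ?_)
    rw [mul_comm, Real.sqrt_mul hn0]
  -- the powers
  have hb2k : ∀ J, b J ^ (2 * k) ≤ n ^ (k - 1) * ∑ i, co φ (zJ w J) i ^ 2 * (l i ^ 2) ^ k := by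
    intro J
    rw [pow_mul, hb]
    simp only
    rw [Real.sq_sqrt (hb20 J)]
    have f1 : b2 J = ∑ i, co φ (zJ w J) i ^ 2 * l i ^ 2 := by
      rw [hb2]
      exact Finset.sum_congr rfl fun i _ => by ring
    rw [f1]
    refine pow_mean univ _ _ (fun i _ => sq_nonneg _) (fun i _ => sq_nonneg _) n ?_ k hk
    rw [hE.parseval, hn]
    calc ∑ x, zJ w J x ^ 2 ≤ ∑ _x : V, (1 : ℝ) := by
          refine Finset.sum_le_sum fun x _ => ?_
          rw [← sq_abs]
          exact pow_le_one₀ (abs_nonneg _) (abs_zJ w hw hs J x)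
      _ = _ := by simp
  have htr : ∑ v, (A ^ (2 * k)) v v = ∑ i, (l i ^ 2) ^ k := by
    have f1 : ∀ v, (A ^ (2 * k)) v v = ∑ i, (l i ^ 2) ^ k * φ i v ^ 2 := by
      intro v
      rw [hE.pow_entry]
      exact Finset.sum_congr rfl fun i _ => by rw [pow_mul]; ring
    simp only [f1]
    rw [Finset.sum_comm]
    refine Finset.sum_congr rfl fun i _ => ?_
    rw [← Finset.mul_sum]
    have f2 := hE.orth i i
    rw [if_pos rfl] at f2
    have f3 : ∑ v, φ i v ^ 2 = 1 := by
      rw [← f2]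
      exact Finset.sum_congr rfl fun v _ => by ring
    rw [f3, mul_one]
  have hsum : ∑ J : Finset (Fin K), b J ^ (2 * k) ≤ S ^ (2 * k) := by
    refine le_trans ?_ hT
    calc ∑ J : Finset (Fin K), b J ^ (2 * k)
        ≤ ∑ J : Finset (Fin K), n ^ (k - 1) * ∑ i, co φ (zJ w J) i ^ 2 * (l i ^ 2) ^ k :=
          Finset.sum_le_sum fun J _ => hb2k J
      _ = n ^ (k - 1) * ∑ i, (∑ J : Finset (Fin K), co φ (zJ w J) i ^ 2) * (l i ^ 2) ^ k := by
          rw [← Finset.mul_sum, Finset.sum_comm]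
          congr 1
          exact Finset.sum_congr rfl fun i _ => by rw [Finset.sum_mul]
      _ ≤ n ^ (k - 1) * ∑ i, n * (l i ^ 2) ^ k := by
          refine mul_le_mul_of_nonneg_left (Finset.sum_le_sum fun i _ => ?_) (pow_nonneg hn0 _)
          refine mul_le_mul_of_nonneg_right ?_ (pow_nonneg (sq_nonneg _) _)
          have f1 := bessel w hw hs hm (φ i)
          have f2 := hE.orth i i
          rw [if_pos rfl] at f2
          have f3 : ∑ v, φ i v ^ 2 = 1 := by
            rw [← f2]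
            exact Finset.sum_congr rfl fun v _ => by ring
          rw [f3, mul_one] at f1
          exact f1
      _ = n ^ k * ∑ v, (A ^ (2 * k)) v v := by
          rw [htr, ← Finset.mul_sum, ← mul_assoc, ← pow_succ, Nat.sub_add_cancel hk]
  have e4 : ∀ J : Finset (Fin K), ε ^ (#J) * b J ≤
      S * ((τ ^ (2 * k)) ^ (#J) + b J ^ (2 * k) / S ^ (2 * k)) := by
    intro J
    have f1 := young (2 * k - 1) (τ ^ (#J)) (b J / S) (pow_nonneg hτ _) (div_nonneg (hb0 J) hS.le)
    rw [Nat.sub_add_cancel (by omega : 1 ≤ 2 * k), div_pow, ← pow_mul, ← pow_mul] at f1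
    have f2 : ε ^ (#J) * b J = S * (τ ^ (#J * (2 * k - 1)) * (b J / S)) := by
      rw [hε, ← pow_mul, mul_comm (2 * k - 1)]
      field_simp
    rw [f2, ← pow_mul, mul_comm (2 * k) (#J)]
    exact mul_le_mul_of_nonneg_left f1 hS.le
  have e5 : ∑ J : Finset (Fin K), ε ^ (#J) * b J ≤ 2 * S * (1 + τ ^ (2 * k)) ^ K := by
    refine (Finset.sum_le_sum fun J _ => e4 J).trans ?_
    rw [← Finset.mul_sum, Finset.sum_add_distrib, ← Finset.sum_div]
    have f1 : ∑ J : Finset (Fin K), (τ ^ (2 * k)) ^ (#J) = (1 + τ ^ (2 * k)) ^ K := by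
      have := sum_powers (K := K) (fun _ => τ ^ (2 * k))
      simp only [Finset.prod_const, Finset.card_univ, Fintype.card_fin] at this
      exact this
    rw [f1]
    have f2 : (∑ J : Finset (Fin K), b J ^ (2 * k)) / S ^ (2 * k) ≤ 1 := by
      rw [div_le_one (pow_pos hS _)]
      exact hsum
    have f3 : (1 : ℝ) ≤ (1 + τ ^ (2 * k)) ^ K := by
      refine one_le_pow₀ ?_
      have := pow_nonneg hτ (2 * k)
      linarith
    have f4 : (1 + τ ^ (2 * k)) ^ K + (∑ J : Finset (Fin K), b J ^ (2 * k)) / S ^ (2 * k) ≤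
        2 * (1 + τ ^ (2 * k)) ^ K := by linarith
    have := mul_le_mul_of_nonneg_left f4 hS.le
    linarith
  calc ∑ J : Finset (Fin K), ε ^ (#J) * ∑ x, ∑ y, A x y * zJ w J x * T J y
      ≤ ∑ J : Finset (Fin K), Real.sqrt n * (ε ^ (#J) * b J) := by
        refine Finset.sum_le_sum fun J _ => ?_
        have := mul_le_mul_of_nonneg_left (e3 J) (pow_nonneg hε0 (#J))
        linarith
    _ = Real.sqrt n * ∑ J : Finset (Fin K), ε ^ (#J) * b J := by rw [← Finset.mul_sum]
    _ ≤ Real.sqrt n * (2 * S * (1 + τ ^ (2 * k)) ^ K) :=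
        mul_le_mul_of_nonneg_left e5 (Real.sqrt_nonneg _)
    _ = _ := by ring

end Pool.Agent.V5helper67.EC
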