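import Pool.Agent.N376.MP.Num
import Pool.Agent.V5helper67.EC.Up

/-! # The choice of one feature

Given weighted cells of the same weight `m`, a random sine feature, centred exactly in each cell,
is correlated with the edges in the mean.
-/

set_option autoImplicit false
set_option maxHeartbeats 400000

open MeasureTheory ProbabilityTheory Finset

namespace Pool.Agent.V5helper67.EC

open Pool.Agent.N376.LM (gam lf measurable_lf lf_add)
open Pool.Agent.N376.MP (psi psi_mono psi_abs psi_sub integrable_of_bdd integral_sin_sin)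

lemma ip_abs {ι : Type} [Fintype ι] (p q : ι → ℝ) (hp : ∑ i, p i ^ 2 = 1)
    (hq : ∑ i, q i ^ 2 = 1) : |∑ i, p i * q i| ≤ 1 := by
  have := sum_mul_sq_le_sq_mul_sq univ p q
  rw [hp, hq] at this
  rw [← sq_le_one_iff_abs_le_one]
  linarith

/-- the mean in a cell of the covariance with `y` -/
lemma cell_mean {V : Type} [Fintype V] [DecidableEq V] (w c : V → ℝ) (hw : ∀ z, 0 ≤ w z)
    (hw1 : ∀ z, w z ≤ 1) (m : ℝ) (hm0 : 0 < m) (hm : ∑ z, w z = m) (β : ℝ) (E : Finset V)
    (D : ℝ) (hD : (#E : ℝ) ≤ D) (hc : ∀ z, z ∉ E → c z ≤ β) (hc1 : ∀ z, c z ≤ β + 1) :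
    (∑ z, w z * c z) / m ≤ β + D / m := by
  have h1 : ∑ z, w z * c z ≤ β * m + D := by
    calc ∑ z, w z * c z ≤ ∑ z, (w z * β + if z ∈ E then (1 : ℝ) else 0) := by
          refine Finset.sum_le_sum fun z _ => ?_
          split_ifs with h
          · have h2 := mul_le_mul_of_nonneg_left (hc1 z) (hw z)
            have h3 := hw1 z
            linarith
          · have h2 := mul_le_mul_of_nonneg_left (hc z h) (hw z)
            linarith
      _ = β * m + #E := by
          rw [Finset.sum_add_distrib, ← Finset.sum_mul, hm]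
          simp [mul_comm]
      _ ≤ _ := by linarith
  rw [div_le_iff₀ hm0, add_mul, div_mul_cancel₀ _ hm0.ne']
  exact h1

theorem step {ι : Type} [Fintype ι] {V : Type} [Fintype V] [DecidableEq V] (p q : V → ι → ℝ)
    (hp : ∀ x, ∑ i, p x i ^ 2 = 1) (hq : ∀ x, ∑ i, q x i ^ 2 = 1) (a b : ℝ)
    (hb : -1 ≤ b) (hab : b < a) (ha : a ≤ 1) (A : V → V → ℝ) (hA0 : ∀ x y, 0 ≤ A x y)
    (h1 : ∀ x y, A x y ≠ 0 → a ≤ ∑ i, p x i * q y i) (E : V → Finset V)
    (h2 : ∀ x y z, A x y ≠ 0 → z ∉ E y → ∑ i, p z i * q y i ≤ b) (D : ℝ)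
    (hE : ∀ x y, A x y ≠ 0 → (#(E y) : ℝ) ≤ D) {I : Type} [Fintype I] (w : I → V → ℝ)
    (hw : ∀ c x, 0 ≤ w c x) (hs : ∀ x, ∑ c, w c x = 1) (m : ℝ) (hm0 : 0 < m)
    (hm : ∀ c, ∑ x, w c x = m) (hD : D / m ≤ (a - b) / 30) :
    ∃ s t : V → ℝ, (∀ x, |s x| ≤ 1) ∧ (∀ y, |t y| ≤ 1) ∧
      (a - b) / 6 * ∑ x, ∑ y, A x y ≤
        ∑ x, ∑ y, A x y * ∑ c, w c x * ((s x - (∑ z, w c z * s z) / m) / 2 * t y) := by
  have hw1 : ∀ c x, w c x ≤ 1 := by
    intro c x
    rw [← hs x]
    exact Finset.single_le_sum (f := fun c => w c x) (fun c _ => hw c x) (Finset.mem_univ c)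
  have hsin : ∀ w g : ι → ℝ, |Real.sin (lf w g)| ≤ 1 := fun w g => Real.abs_sin_le_one _
  have hms : ∀ w : ι → ℝ, Measurable fun g => Real.sin (lf w g) := fun w => by
    have := measurable_lf w
    fun_prop
  set Sf : V → V → (ι → ℝ) → ℝ := fun x y g => Real.sin (lf (p x) g) * Real.sin (lf (q y) g)
    with hSf
  set C : V → V → ℝ := fun x y => psi (∑ i, p x i * q y i) with hC
  have hss : ∀ x y, Integrable (fun g => Sf x y g) (gam ι) := by
    intro x y
    refine integrable_of_bdd _ ((hms _).mul (hms _)) 1 fun g => ?_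
    rw [abs_mul]
    exact mul_le_one₀ (hsin _ _) (abs_nonneg _) (hsin _ _)
  have hint : ∀ x y, ∫ g, Sf x y g ∂(gam ι) = C x y := by
    intro x y
    exact integral_sin_sin (p x) (q y) (hp x) (hq y)
  -- the form as a linear combination
  set F : (ι → ℝ) → ℝ := fun g => ∑ x, ∑ y, A x y * ∑ c, w c x *
    ((Sf x y g - (∑ z, w c z * Sf z y g) / m) / 2) with hF
  have i1 : ∀ (c : I) (y : V), Integrable (fun g => (∑ z, w c z * Sf z y g) / m) (gam ι) := by
    intro c y
    exact (integrable_finsetSum _ fun z _ => (hss z y).const_mul _).div_const _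
  have i2 : ∀ (c : I) (x y : V), Integrable (fun g => w c x *
      ((Sf x y g - (∑ z, w c z * Sf z y g) / m) / 2)) (gam ι) := by
    intro c x y
    exact (((hss x y).sub (i1 c y)).div_const _).const_mul _
  have i3 : ∀ x y, Integrable (fun g => A x y * ∑ c, w c x *
      ((Sf x y g - (∑ z, w c z * Sf z y g) / m) / 2)) (gam ι) := by
    intro x y
    exact (integrable_finsetSum _ fun c _ => i2 c x y).const_mul _
  have i4 : ∀ x, Integrable (fun g => ∑ y, A x y * ∑ c, w c x *
      ((Sf x y g - (∑ z, w c z * Sf z y g) / m) / 2)) (gam ι) := by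
    intro x
    exact integrable_finsetSum _ fun y _ => i3 x y
  have i5 : Integrable F (gam ι) := integrable_finsetSum _ fun x _ => i4 x
  have hval : ∫ g, F g ∂(gam ι) = ∑ x, ∑ y, A x y * ∑ c, w c x *
      ((C x y - (∑ z, w c z * C z y) / m) / 2) := by
    rw [hF]
    rw [integral_finsetSum _ fun x _ => i4 x]
    refine Finset.sum_congr rfl fun x _ => ?_
    rw [integral_finsetSum _ fun y _ => i3 x y]
    refine Finset.sum_congr rfl fun y _ => ?_
    rw [integral_const_mul, integral_finsetSum _ fun c _ => i2 c x y]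
    congr 1
    refine Finset.sum_congr rfl fun c _ => ?_
    rw [integral_const_mul, integral_div, integral_sub (hss x y) (i1 c y), hint, integral_div,
      integral_finsetSum _ fun z _ => (hss z y).const_mul _]
    have e1 : ∑ z, ∫ g, w c z * Sf z y g ∂(gam ι) = ∑ z, w c z * C z y := by
      refine Finset.sum_congr rfl fun z _ => ?_
      rw [integral_const_mul, hint]
    rw [e1]
  have hlow : (a - b) / 6 * ∑ x, ∑ y, A x y ≤ ∫ g, F g ∂(gam ι) := by
    rw [hval, Finset.mul_sum]
    refine Finset.sum_le_sum fun x _ => ?_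
    rw [Finset.mul_sum]
    refine Finset.sum_le_sum fun y _ => ?_
    by_cases hxy : A x y = 0
    · rw [hxy, mul_zero, zero_mul]
    · rw [mul_comm]
      refine mul_le_mul_of_nonneg_left ?_ (hA0 x y)
      have hk : ∀ c, (a - b) / 6 ≤ (C x y - (∑ z, w c z * C z y) / m) / 2 := by
        intro c
        have g1 : psi a ≤ C x y := psi_mono (h1 x y hxy)
        have g2 := psi_sub hab.le
        have g3 := cell_mean (w c) (fun z => C z y) (hw c) (hw1 c) m hm0 (hm c) (psi b) (E y) D
          (hE x y hxy) (fun z hz => psi_mono (h2 x y z hxy hz)) (fun z => by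
            have e1 := abs_le.1 (psi_abs (ip_abs (p z) (q y) (hp z) (hq y)))
            have e2 := abs_le.1 (psi_abs (abs_le.2 ⟨hb, by linarith⟩ : |b| ≤ 1))
            have e3 : C z y ≤ 0.4324 := e1.2
            linarith [e2.1])
        linarith
      calc (a - b) / 6 = ∑ c, w c x * ((a - b) / 6) := by
            rw [← Finset.sum_mul, hs x, one_mul]
        _ ≤ _ := Finset.sum_le_sum fun c _ => mul_le_mul_of_nonneg_left (hk c) (hw c x)
  obtain ⟨g, hg⟩ := exists_integral_le i5
  refine ⟨fun x => Real.sin (lf (p x) g), fun y => Real.sin (lf (q y) g), fun x => hsin _ _,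
    fun y => hsin _ _, hlow.trans (hg.trans (le_of_eq ?_))⟩
  rw [hF]
  refine Finset.sum_congr rfl fun x _ => Finset.sum_congr rfl fun y _ => ?_
  congr 1
  refine Finset.sum_congr rfl fun c _ => ?_
  congr 1
  rw [hSf]
  simp only
  have e1 : ∑ z, w c z * (Real.sin (lf (p z) g) * Real.sin (lf (q y) g)) =
      (∑ z, w c z * Real.sin (lf (p z) g)) * Real.sin (lf (q y) g) := by
    rw [Finset.sum_mul]
    exact Finset.sum_congr rfl fun z _ => by ring
  rw [e1]
  ring

end Pool.Agent.V5helper67.EC
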