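import Pool.Agent.V5helper67.EC.Tree
import Pool.Agent.V5helper67.EC.Step

/-! # The comparison of the two bounds -/

set_option autoImplicit false
set_option maxHeartbeats 400000
set_option linter.unusedSectionVars false

open Finset

namespace Pool.Agent.V5helper67.EC

variable {V : Type} [Fintype V] [DecidableEq V]

lemma exp_le_one_add (t : ℝ) (ht : |t| ≤ 1 / 5) : Real.exp (t - 2 * t ^ 2) ≤ 1 + t := by
  have h0 := abs_le.1 ht
  have h1 : |t - 2 * t ^ 2| ≤ 1 := by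
    rw [abs_le]
    constructor <;> nlinarith
  have h2 := (abs_le.1 (Real.abs_exp_sub_one_sub_id_le h1)).2
  have h3 : (t - 2 * t ^ 2) ^ 2 ≤ 2 * t ^ 2 := by
    have e1 : (t - 2 * t ^ 2) ^ 2 = t ^ 2 * (1 - 2 * t) ^ 2 := by ring
    have e2 : (1 - 2 * t) ^ 2 ≤ 2 := by nlinarith
    rw [e1]
    nlinarith [mul_le_mul_of_nonneg_left e2 (sq_nonneg t)]
  linarith

/-- the tangent of the exponential function -/
lemma tangent (L lam : ℝ) : Real.exp lam * (1 + L - lam) ≤ Real.exp L := by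
  have h1 := Real.add_one_le_exp (L - lam)
  have h2 : Real.exp L = Real.exp lam * Real.exp (L - lam) := by
    rw [← Real.exp_add]
    congr 1
    ring
  rw [h2]
  exact mul_le_mul_of_nonneg_left (by linarith) (Real.exp_pos _).le

theorem main_ineq (A : Matrix V V ℝ) (hA : A.IsHermitian) (hA0 : ∀ x y, 0 ≤ A x y) (k : ℕ)
    (hk : 2 ≤ k) {K : ℕ} (w : (Fin K → Bool) → V → ℝ) (hw : ∀ c x, 0 ≤ w c x)
    (hs : ∀ x, ∑ c, w c x = 1) (hm : ∀ c, ∑ x, w c x = Fintype.card V / 2 ^ K)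
    (t : Fin K → V → ℝ) (ht : ∀ j y, |t j y| ≤ 1) (τ : ℝ) (hτ : 0 < τ) (hτ1 : τ ≤ 1 / 12)
    (hj : ∀ j, 4 * τ * ∑ x, ∑ y, A x y ≤ ∑ x, ∑ y, A x y * ∑ c, w c x * (sb (c j) * t j y))
    (S : ℝ) (hS : 0 < S)
    (hT : (Fintype.card V : ℝ) ^ k * ∑ v, (A ^ (2 * k)) v v ≤ S ^ (2 * k)) :
    (∑ x, ∑ y, A x y) * Real.exp (2 * K * τ ^ (2 * k)) ≤
      2 * Real.sqrt (Fintype.card V) * S := by
  have hup := upper A hA k (by omega) w hw hs hm t ht τ hτ.le S hS hT
  set e := ∑ x, ∑ y, A x y with he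
  set ε := τ ^ (2 * k - 1) with hε
  have hε0 : 0 < ε := pow_pos hτ _
  have hτ2 : ε * τ = τ ^ (2 * k) := by
    rw [hε, ← pow_succ, Nat.sub_add_cancel (by omega)]
  have hε1 : ε ≤ 1 / 12 := by
    calc ε ≤ τ ^ 1 := pow_le_pow_of_le_one hτ.le (by linarith) (by omega)
      _ ≤ 1 / 12 := by rw [pow_one]; exact hτ1
  have hετ : ε ≤ τ := by
    calc ε ≤ τ ^ 1 := pow_le_pow_of_le_one hτ.le (by linarith) (by omega)
      _ = τ := pow_one _
  have hε2 : 2 * ε ^ 2 ≤ τ ^ (2 * k) := by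
    have h1 : ε ≤ τ ^ 2 := pow_le_pow_of_le_one hτ.le (by linarith) (by omega)
    have h2 : 2 * ε ≤ τ := by nlinarith
    rw [← hτ2]
    nlinarith
  have he0 : 0 ≤ e := Finset.sum_nonneg fun x _ => Finset.sum_nonneg fun y _ => hA0 x y
  set lam := 3 * K * τ ^ (2 * k) with hlam
  have hK0 : (0 : ℝ) ≤ K := Nat.cast_nonneg _
  have hp0 : 0 ≤ τ ^ (2 * k) := pow_nonneg hτ.le _
  -- lower bound for each product
  have h1 : ∀ (c : Fin K → Bool) (y : V), Real.exp lam *
      (1 + (ε * ∑ j, sb (c j) * t j y - 2 * K * ε ^ 2) - lam) ≤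
      ∏ j, (1 + ε * (sb (c j) * t j y)) := by
    intro c y
    refine (tangent _ _).trans ?_
    have g1 : ε * ∑ j, sb (c j) * t j y - 2 * K * ε ^ 2 =
        ∑ j, (ε * (sb (c j) * t j y) - 2 * ε ^ 2) := by
      rw [Finset.sum_sub_distrib, ← Finset.mul_sum, Finset.sum_const, Finset.card_univ,
        Fintype.card_fin, nsmul_eq_mul]
      ring
    rw [g1, Real.exp_sum]
    refine Finset.prod_le_prod (fun j _ => (Real.exp_pos _).le) fun j _ => ?_
    have g2 : |sb (c j) * t j y| ≤ 1 := by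
      rw [abs_mul, abs_sb, one_mul]
      exact ht j y
    have g3 : |ε * (sb (c j) * t j y)| ≤ ε := by
      rw [abs_mul, abs_of_pos hε0]
      exact mul_le_of_le_one_right hε0.le g2
    have g4 : (ε * (sb (c j) * t j y)) ^ 2 ≤ ε ^ 2 := by
      rw [← sq_abs]
      exact pow_le_pow_left₀ (abs_nonneg _) g3 2
    refine le_trans ?_ (exp_le_one_add _ (g3.trans (by linarith)))
    exact Real.exp_le_exp.2 (by linarith)
  have h2 : ∀ x y, A x y * ∑ c, w c x * (Real.exp lam *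
      (1 + (ε * ∑ j, sb (c j) * t j y - 2 * K * ε ^ 2) - lam)) ≤
      A x y * ∑ c, w c x * ∏ j, (1 + ε * (sb (c j) * t j y)) := by
    intro x y
    refine mul_le_mul_of_nonneg_left (Finset.sum_le_sum fun c _ => ?_) (hA0 x y)
    exact mul_le_mul_of_nonneg_left (h1 c y) (hw c x)
  have h3 : ∀ x y, A x y * ∑ c, w c x * (Real.exp lam *
      (1 + (ε * ∑ j, sb (c j) * t j y - 2 * K * ε ^ 2) - lam)) =
      Real.exp lam * ((1 - 2 * K * ε ^ 2 - lam) * A x y +
        ε * ∑ j, A x y * ∑ c, w c x * (sb (c j) * t j y)) := by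
    intro x y
    have g1 : ∀ c : Fin K → Bool, w c x * (Real.exp lam *
        (1 + (ε * ∑ j, sb (c j) * t j y - 2 * K * ε ^ 2) - lam)) =
        Real.exp lam * ((1 - 2 * K * ε ^ 2 - lam) * w c x +
          ε * ∑ j, w c x * (sb (c j) * t j y)) := by
      intro c
      rw [← Finset.mul_sum]
      ring
    simp only [g1]
    rw [← Finset.mul_sum, Finset.sum_add_distrib, ← Finset.mul_sum, hs x, ← Finset.mul_sum,
      Finset.sum_comm]
    have g2 : ∑ j, A x y * ∑ c, w c x * (sb (c j) * t j y) =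
        A x y * ∑ j, ∑ c, w c x * (sb (c j) * t j y) := by rw [← Finset.mul_sum]
    rw [g2]
    ring
  have h4 : Real.exp lam * e ≤
      ∑ x, ∑ y, A x y * ∑ c, w c x * ∏ j, (1 + ε * (sb (c j) * t j y)) := by
    refine le_trans ?_ (Finset.sum_le_sum fun x _ => Finset.sum_le_sum fun y _ => h2 x y)
    simp only [h3]
    have g1 : ∑ x, ∑ y, Real.exp lam * ((1 - 2 * K * ε ^ 2 - lam) * A x y +
        ε * ∑ j, A x y * ∑ c, w c x * (sb (c j) * t j y)) =
        Real.exp lam * ((1 - 2 * K * ε ^ 2 - lam) * e +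
          ε * ∑ j, ∑ x, ∑ y, A x y * ∑ c, w c x * (sb (c j) * t j y)) := by
      have g2 : ∑ j, ∑ x, ∑ y, A x y * ∑ c, w c x * (sb (c j) * t j y) =
          ∑ x, ∑ y, ∑ j, A x y * ∑ c, w c x * (sb (c j) * t j y) := by
        rw [Finset.sum_comm]
        exact Finset.sum_congr rfl fun x _ => Finset.sum_comm
      rw [g2, he]
      simp only [Finset.mul_sum, Finset.sum_add_distrib, mul_add]
    rw [g1]
    refine mul_le_mul_of_nonneg_left ?_ (Real.exp_pos _).le
    have g3 : (K : ℝ) * (4 * τ * e) ≤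
        ∑ j, ∑ x, ∑ y, A x y * ∑ c, w c x * (sb (c j) * t j y) := by
      calc (K : ℝ) * (4 * τ * e) = ∑ _j : Fin K, 4 * τ * e := by
            rw [Finset.sum_const, Finset.card_univ, Fintype.card_fin, nsmul_eq_mul]
        _ ≤ _ := Finset.sum_le_sum fun j _ => hj j
    have g4 := mul_le_mul_of_nonneg_left g3 hε0.le
    have g5 : ε * ((K : ℝ) * (4 * τ * e)) = 4 * K * τ ^ (2 * k) * e := by
      rw [← hτ2]; ring
    rw [g5] at g4
    have g6 : 0 ≤ (K * e) * (τ ^ (2 * k) - 2 * ε ^ 2) :=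
      mul_nonneg (mul_nonneg hK0 he0) (by linarith)
    rw [hlam]
    nlinarith
  have h5 : (1 + τ ^ (2 * k)) ^ K ≤ Real.exp (K * τ ^ (2 * k)) := by
    rw [Real.exp_nat_mul]
    refine pow_le_pow_left₀ (by linarith) ?_ K
    have := Real.add_one_le_exp (τ ^ (2 * k))
    linarith
  have h6 : Real.exp lam * e ≤
      2 * Real.sqrt (Fintype.card V) * S * Real.exp (K * τ ^ (2 * k)) :=
    (h4.trans hup).trans (mul_le_mul_of_nonneg_left h5 (by positivity))
  have h7 : Real.exp lam = Real.exp (2 * K * τ ^ (2 * k)) * Real.exp (K * τ ^ (2 * k)) := by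
    rw [← Real.exp_add, hlam]
    congr 1
    ring
  rw [h7] at h6
  have h8 : (e * Real.exp (2 * K * τ ^ (2 * k))) * Real.exp (K * τ ^ (2 * k)) ≤
      (2 * Real.sqrt (Fintype.card V) * S) * Real.exp (K * τ ^ (2 * k)) := by linarith
  exact le_of_mul_le_mul_right h8 (Real.exp_pos _)

end Pool.Agent.V5helper67.EC
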