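import Pool.Agent.V5helper67.EC.Up

/-! # Cells of the same weight and features, one after the other -/

set_option autoImplicit false
set_option maxHeartbeats 400000
set_option linter.unusedSectionVars false

open Finset

namespace Pool.Agent.V5helper67.EC

lemma sum_cons {K : ℕ} (f : (Fin (K + 1) → Bool) → ℝ) :
    ∑ c, f c = ∑ c : Fin K → Bool, (f (Fin.cons true c) + f (Fin.cons false c)) := by
  rw [← (Fin.consEquiv (fun _ : Fin (K + 1) => Bool)).sum_comp, Fintype.sum_prod_type,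
    Fintype.sum_bool, ← Finset.sum_add_distrib]
  rfl

variable {V : Type} [Fintype V] [DecidableEq V]

/-- the centred feature -/
noncomputable def th {I : Type} (w : I → V → ℝ) (m : ℝ) (s : V → ℝ) (c : I) (x : V) : ℝ :=
  (s x - (∑ z, w c z * s z) / m) / 2

lemma abs_th {I : Type} (w : I → V → ℝ) (hw : ∀ c x, 0 ≤ w c x) (m : ℝ) (hm0 : 0 < m)
    (hm : ∀ c, ∑ x, w c x = m) (s : V → ℝ) (hs : ∀ x, |s x| ≤ 1) (c : I) (x : V) :
    |th w m s c x| ≤ 1 := by
  have h1 : |(∑ z, w c z * s z) / m| ≤ 1 := by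
    rw [abs_div, abs_of_pos hm0, div_le_one hm0]
    calc |∑ z, w c z * s z| ≤ ∑ z, |w c z * s z| := Finset.abs_sum_le_sum_abs _ _
      _ ≤ ∑ z, w c z := by
          refine Finset.sum_le_sum fun z _ => ?_
          rw [abs_mul, abs_of_nonneg (hw c z)]
          exact mul_le_of_le_one_right (hw c z) (hs z)
      _ = m := hm c
  have h2 := abs_le.1 h1
  have h3 := abs_le.1 (hs x)
  unfold th
  rw [abs_le]
  constructor <;> linarith [h2.1, h2.2, h3.1, h3.2]

lemma th_sum {I : Type} (w : I → V → ℝ) (m : ℝ) (hm0 : 0 < m)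
    (hm : ∀ c, ∑ x, w c x = m) (s : V → ℝ) (c : I) :
    ∑ x, w c x * th w m s c x = 0 := by
  unfold th
  have h1 : ∀ x, w c x * ((s x - (∑ z, w c z * s z) / m) / 2) =
      (w c x * s x) / 2 - w c x * ((∑ z, w c z * s z) / m / 2) := fun x => by ring
  simp only [h1]
  rw [Finset.sum_sub_distrib, ← Finset.sum_div, ← Finset.sum_mul, hm c]
  field_simp
  ring

theorem tree (A : V → V → ℝ) (κ m₀ n : ℝ) (hn0 : 0 < n) (hn : (Fintype.card V : ℝ) = n)
    (hstep : ∀ (K : ℕ) (w : (Fin K → Bool) → V → ℝ), (∀ c x, 0 ≤ w c x) →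
      (∀ x, ∑ c, w c x = 1) → (∀ c, ∑ x, w c x = n / 2 ^ K) → m₀ ≤ n / 2 ^ K →
      ∃ s t : V → ℝ, (∀ x, |s x| ≤ 1) ∧ (∀ y, |t y| ≤ 1) ∧
        κ * ∑ x, ∑ y, A x y ≤
          ∑ x, ∑ y, A x y * ∑ c, w c x * ((s x - (∑ z, w c z * s z) / (n / 2 ^ K)) / 2 * t y))
    (K : ℕ) (hK : m₀ ≤ n / 2 ^ K) :
    ∃ (w : (Fin K → Bool) → V → ℝ) (t : Fin K → V → ℝ), (∀ c x, 0 ≤ w c x) ∧
      (∀ x, ∑ c, w c x = 1) ∧ (∀ c, ∑ x, w c x = n / 2 ^ K) ∧ (∀ j y, |t j y| ≤ 1) ∧
      ∀ j, κ * ∑ x, ∑ y, A x y ≤ ∑ x, ∑ y, A x y * ∑ c, w c x * (sb (c j) * t j y) := by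
  induction K with
  | zero =>
    refine ⟨fun _ _ => 1, fun j => j.elim0, fun _ _ => zero_le_one, fun x => ?_, fun c => ?_,
      fun j => j.elim0, fun j => j.elim0⟩
    · simp
    · simp [hn]
  | succ K ih =>
    have hm1 : n / 2 ^ (K + 1) ≤ n / 2 ^ K := by
      rw [pow_succ, ← div_div]
      have : 0 < n / 2 ^ K := by positivity
      linarith
    obtain ⟨w, t, hw, hs, hm, ht, hj⟩ := ih (hK.trans hm1)
    obtain ⟨s, t₀, hs1, ht0, hst⟩ := hstep K w hw hs hm (hK.trans hm1)
    set m := n / 2 ^ K with hmd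
    have hm0 : 0 < m := by positivity
    set θ := th w m s with hθ
    have hθ1 : ∀ c x, |θ c x| ≤ 1 := abs_th w hw m hm0 hm s hs1
    set w' : (Fin (K + 1) → Bool) → V → ℝ := fun c x =>
      w (Fin.tail c) x * ((1 + sb (c 0) * θ (Fin.tail c) x) / 2) with hw'
    have hcons : ∀ (b : Bool) (c : Fin K → Bool) (x : V), w' (Fin.cons b c) x =
        w c x * ((1 + sb b * θ c x) / 2) := by
      intro b c x
      rw [hw']
      simp only [Fin.tail_cons, Fin.cons_zero]
    refine ⟨w', Fin.cons t₀ t, ?_, ?_, ?_, ?_, ?_⟩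
    · intro c x
      refine mul_nonneg (hw _ _) (div_nonneg ?_ zero_le_two)
      have h1 := abs_le.1 (hθ1 (Fin.tail c) x)
      have h2 : |sb (c 0) * θ (Fin.tail c) x| ≤ 1 := by
        rw [abs_mul, abs_sb, one_mul]
        exact hθ1 _ _
      linarith [(abs_le.1 h2).1]
    · intro x
      rw [sum_cons, ← hs x]
      refine Finset.sum_congr rfl fun c _ => ?_
      rw [hcons, hcons, sb_true, sb_false]
      ring
    · intro c
      obtain ⟨b, c, rfl⟩ : ∃ b c', c = Fin.cons b c' := ⟨c 0, Fin.tail c, (Fin.cons_self_tail c).symm⟩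
      simp only [hcons]
      have h1 : ∀ x, w c x * ((1 + sb b * θ c x) / 2) =
          w c x / 2 + sb b / 2 * (w c x * θ c x) := fun x => by ring
      simp only [h1]
      rw [Finset.sum_add_distrib, ← Finset.sum_div, ← Finset.mul_sum, hm c, hθ,
        th_sum w m hm0 hm s c, hmd, pow_succ]
      ring
    · intro j y
      refine Fin.cases ?_ (fun i => ?_) j
      · rw [Fin.cons_zero]; exact ht0 y
      · rw [Fin.cons_succ]; exact ht i y
    · intro j
      refine Fin.cases ?_ (fun i => ?_) j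
      · refine hst.trans (le_of_eq ?_)
        refine Finset.sum_congr rfl fun x _ => Finset.sum_congr rfl fun y _ => ?_
        congr 1
        rw [sum_cons]
        refine Finset.sum_congr rfl fun c _ => ?_
        rw [hcons, hcons]
        simp only [Fin.cons_zero, sb_true, sb_false]
        rw [hθ]
        unfold th
        ring
      · refine (hj i).trans (le_of_eq ?_)
        refine Finset.sum_congr rfl fun x _ => Finset.sum_congr rfl fun y _ => ?_
        congr 1
        rw [sum_cons]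
        refine Finset.sum_congr rfl fun c _ => ?_
        rw [hcons, hcons]
        simp only [Fin.cons_succ, sb_true, sb_false]
        ring

end Pool.Agent.V5helper67.EC
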